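import Mathlib

/-!
# Unbalancing few sets (polynomial method)
-/

set_option autoImplicit false

namespace Pool.Agent.Y530

open Finset

/-- An alternating sum over a cube of a product of few affine functions vanishes. -/
lemma alt_sum_zero {ι R L : Type*} [Fintype ι] [DecidableEq ι] [CommRing R] [Fintype L]
    [DecidableEq L] (c : L → R) (b : L → ι → R) (h : Fintype.card L < Fintype.card ι) :
    ∑ X : Finset ι, (-1 : R) ^ X.card * ∏ l, (c l + ∑ i ∈ X, b l i) = 0 := by
  classical
  have h1 : ∀ X : Finset ι, ∏ l, (c l + ∑ i ∈ X, b l i) =
      ∑ φ : L → Option ι, ∏ l, (Option.elim (φ l) (c l) fun i => if i ∈ X then b l i else 0) := by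
    intro X
    have h2 : ∀ l, c l + ∑ i ∈ X, b l i =
        ∑ o : Option ι, Option.elim o (c l) fun i => if i ∈ X then b l i else 0 := by
      intro l
      rw [Fintype.sum_option]
      simp only [Option.elim]
      rw [← Finset.sum_filter]
      congr 1
      apply Finset.sum_congr _ fun _ _ => rfl
      ext i; simp
    rw [Finset.prod_congr rfl fun l _ => h2 l, Finset.prod_univ_sum, Fintype.piFinset_univ]
  simp only [h1, Finset.mul_sum]
  rw [Finset.sum_comm]
  apply Finset.sum_eq_zero
  intro φ _
  obtain ⟨i₀, hi₀⟩ : ∃ i₀, ∀ l, φ l ≠ some i₀ := by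
    by_contra hcon
    push Not at hcon
    choose g hg using hcon
    have hinj : Function.Injective g := by
      intro a b hab
      have := (hg a).symm.trans (hab ▸ hg b)
      exact Option.some_injective _ this
    exact absurd (Fintype.card_le_of_injective g hinj) (not_le.mpr h)
  refine Finset.sum_involution (fun X _ => symmDiff X {i₀}) ?_ ?_ ?_ ?_
  · intro X _
    have h3 : ∀ l, (Option.elim (φ l) (c l) fun i => if i ∈ symmDiff X {i₀} then b l i else 0) =
        Option.elim (φ l) (c l) fun i => if i ∈ X then b l i else 0 := by
      intro l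
      cases hl : φ l with
      | none => rfl
      | some i =>
        have : i ≠ i₀ := fun h => hi₀ l (h ▸ hl)
        simp [Finset.mem_symmDiff, this]
    simp only [h3]
    have h4 : (-1 : R) ^ (symmDiff X {i₀}).card = - (-1) ^ X.card := by
      by_cases hi : i₀ ∈ X
      · have e1 : symmDiff X {i₀} = X.erase i₀ := by
          ext i
          simp only [Finset.mem_symmDiff, Finset.mem_singleton, Finset.mem_erase]
          constructor
          · rintro (⟨h, h'⟩ | ⟨h, h'⟩)
            · exact ⟨h', h⟩
            · exact absurd (h ▸ hi) h'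
          · rintro ⟨h, h'⟩
            exact Or.inl ⟨h', h⟩
        rw [e1, ← Finset.card_erase_add_one hi]
        ring
      · have e1 : symmDiff X {i₀} = insert i₀ X := by
          ext i
          simp only [Finset.mem_symmDiff, Finset.mem_singleton, Finset.mem_insert]
          constructor
          · rintro (⟨h, h'⟩ | ⟨h, h'⟩)
            · exact Or.inr h
            · exact Or.inl h
          · rintro (h | h)
            · exact Or.inr ⟨h, h ▸ hi⟩
            · exact Or.inl ⟨h, fun h' => hi (h' ▸ h)⟩
        rw [e1, Finset.card_insert_of_notMem hi]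
        ring
    rw [h4]
    ring
  · intro X _ _ hX
    have : i₀ ∈ symmDiff X {i₀} ↔ i₀ ∈ X := by rw [hX]
    simp [Finset.mem_symmDiff] at this
  · intro X _
    exact Finset.mem_univ _
  · intro X _
    rw [symmDiff_symmDiff_cancel_right]

end Pool.Agent.Y530
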