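import Pool.Agent.Y530.SetRank

/-!
# The core inequality for programs with few sets
-/

set_option autoImplicit false
set_option linter.unusedSectionVars false

namespace Pool.Agent.Y530

open Finset Pool.Agent.TH708.Nar Pool.Agent.TH708.Ari

variable {K : Type} [Field K] {n N : ℕ}

lemma Dep.half {V : Type} [DecidableEq V] [Fintype V] {D Y : Finset V} {F : (V → Bool) → K}
    (h : Dep D F) : ∃ a, RkLe Y (2 ^ a) F ∧ a ≤ (D ∩ Y).card ∧ a + (D ∩ Y).card ≤ D.card := by
  obtain ⟨a, h1, h2, h3⟩ := h.rk_half (Y := Y)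
  have hle : (D ∩ Y).card ≤ D.card := card_le_card inter_subset_left
  refine ⟨a, h1, ?_, ?_⟩
  · have := h3 (D.card - 2 * (D ∩ Y).card) (by
      unfold Near
      omega)
    omega
  · have := h3 (2 * (D ∩ Y).card - D.card) (by
      unfold Near
      omega)
    omega

/-- the cut of a program at a level -/
lemma cut_entries (P : SetProg K n N) (W : Finset (Fin n)) (k0 : ℕ) (hk : k0 < W.card)
    (z : Fin n × Fin n → K) :
    P.eval z = ∑ q : Fin N × Fin N,
      if (Dv W (P.S q.1)).card ≤ k0 ∧ k0 < (Dv W (P.S q.2)).card then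
        P.G z P.src q.1 * P.w q.1 q.2 z * P.G z q.2 P.snk else 0 := by
  classical
  set ε : Fin N → K := fun v => if (Dv W (P.S v)).card ≤ k0 then 1 else 0 with hε
  set E : Matrix (Fin N) (Fin N) K := Matrix.diagonal ε with hE
  have h1E : (1 - E) = Matrix.diagonal (fun v => 1 - ε v) := by
    rw [← Matrix.diagonal_one, hE, Matrix.diagonal_sub]
  have hEE : E * E = E := by
    rw [hE, Matrix.diagonal_mul_diagonal]
    congr 1
    funext v
    simp only [hε]
    split_ifs <;> simp
  have hL : (1 - E) * P.mat z * E = 0 := by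
    rw [h1E, hE]
    ext u v
    rw [Matrix.mul_diagonal, Matrix.diagonal_mul]
    by_cases hw : P.w u v = 0
    · have : P.mat z u v = 0 := by
        show P.w u v z = 0
        rw [hw]; rfl
      simp [this]
    · have h1 := (P.edge u v hw).2
      have h2 := card_le_card (Dv_mono (W := W) h1)
      simp only [hε]
      by_cases h3 : (Dv W (P.S v)).card ≤ k0
      · rw [if_pos (h2.trans h3)]
        simp
      · rw [if_neg h3]
        simp
  have hcut := cut_formula E (P.G z) (P.mat z) hEE hL (P.G_mul z) (P.mul_G z)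
  have hsrc : ε P.src = 1 := by
    simp only [hε]
    rw [if_pos]
    rw [P.src_empty]
    simp [Dv]
  have hsnk : ε P.snk = 0 := by
    simp only [hε]
    rw [if_neg]
    rw [P.snk_univ]
    have : Dv W (univ : Finset (Fin n)) = univ := by
      ext i; simp [Dv]
    rw [this, card_univ, Fintype.card_coe]
    omega
  have h1 : (E * P.G z * (1 - E)) P.src P.snk = P.eval z := by
    rw [h1E, hE, Matrix.mul_diagonal, Matrix.diagonal_mul, hsrc, hsnk, P.eval_eq]
    ring
  rw [← h1, hcut]
  have h2 : E * P.G z * E * P.mat z * (1 - E) * P.G z * (1 - E) =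
      ((E * P.G z * E) * P.mat z) * ((1 - E) * P.G z * (1 - E)) := by
    simp only [Matrix.mul_assoc]
  rw [h2, Matrix.mul_apply, Fintype.sum_prod_type, Finset.sum_comm]
  apply Finset.sum_congr rfl
  intro v _
  rw [Matrix.mul_apply, Finset.sum_mul]
  apply Finset.sum_congr rfl
  intro u _
  rw [h1E, hE]
  simp only [Matrix.mul_diagonal, Matrix.diagonal_mul]
  rw [hsrc, hsnk]
  simp only [hε]
  have h3 : P.mat z u v = P.w u v z := rfl
  rw [h3]
  by_cases hu : (Dv W (P.S u)).card ≤ k0
  · by_cases hv : (Dv W (P.S v)).card ≤ k0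
    · rw [if_pos hu, if_pos hv, if_neg (fun h => absurd h.2 (not_lt.mpr hv))]
      ring
    · rw [if_pos hu, if_neg hv, if_pos ⟨hu, not_le.mp hv⟩]
      ring
  · have h4 : ¬ ((Dv W (P.S u)).card ≤ k0 ∧ k0 < (Dv W (P.S v)).card) := fun h => hu h.1
    rw [if_neg hu, if_neg h4]
    ring

/-- **The core inequality.** -/
theorem core (P : SetProg K n N) (hP : IsPer P.eval ∨ IsDet P.eval) (p e ℓ k0 : ℕ) (hp : p.Prime)
    (W : Finset (Fin n)) (hW : W.card = 4 * p) (he : e % 2 = 1) (hk0 : k0 ≤ p)
    (hkl : e + ℓ ≤ k0)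
    (hℓ : 2 * e ≤ ℓ ∨ ∀ u v, P.w u v ≠ 0 → (P.S v \ P.S u).card ≤ ℓ)
    (ht : e * ((univ.image fun v => Dv W (P.S v)).filter
      fun D => k0 < D.card + ℓ ∧ D.card ≤ k0).card ≤ p - 1) : 2 ^ e ≤ 2 * N ^ 2 := by
  classical
  have hp2 := hp.two_le
  obtain ⟨Y, hY, hYn⟩ := exists_unbalanced (V := ↥W) p e hp (by rw [Fintype.card_coe, hW])
    ((univ.image fun v => Dv W (P.S v)).filter fun D => k0 < D.card + ℓ ∧ D.card ≤ k0) he ht
    (by
      intro D hD
      rw [mem_filter] at hD
      omega)
  obtain ⟨ρ, hρ⟩ := fn_full P.eval hP W Y (by rw [hY, hW])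
  have hcY : Y.card = 2 * p := by omega
  -- the bound for the rank
  have hrk : RkLe Y ((univ : Finset (Fin N × Fin N)).card * (2 * 2 ^ (2 * p - e)))
      (fun x => P.eval (point (dg W) ρ x)) := by
    have hfun : (fun x => P.eval (point (dg W) ρ x)) = fun x : ↥W → Bool =>
        ∑ q ∈ (univ : Finset (Fin N × Fin N)),
        if (Dv W (P.S q.1)).card ≤ k0 ∧ k0 < (Dv W (P.S q.2)).card then
          P.G (point (dg W) ρ x) P.src q.1 * P.w q.1 q.2 (point (dg W) ρ x) *
            P.G (point (dg W) ρ x) q.2 P.snk else 0 := by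
      funext x
      exact cut_entries P W k0 (by omega) _
    rw [hfun]
    apply RkLe.sum
    rintro ⟨u, v⟩ _
    simp only
    by_cases hc : (Dv W (P.S u)).card ≤ k0 ∧ k0 < (Dv W (P.S v)).card
    swap
    · simp only [if_neg hc]
      exact rk_zero.mono (Nat.zero_le _)
    by_cases hw : P.w u v = 0
    · simp only [hw, Pi.zero_apply, mul_zero, zero_mul, ite_self]
      exact rk_zero.mono (Nat.zero_le _)
    simp only [if_pos hc]
    have hsub := (P.edge u v hw).2
    have hsubD := Dv_mono (W := W) hsub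
    obtain ⟨a, ha, ha1, ha2⟩ := Dep.half (Y := Y)
      ((G_dep P W ρ P.src u).mono (sdiff_subset (s := Dv W (P.S u))))
    have hDv' : Dv W (P.S P.snk) \ Dv W (P.S v) = univ \ Dv W (P.S v) := by
      rw [P.snk_univ]
      ext i; simp [Dv]
    have hdep := G_dep P W ρ v P.snk
    rw [hDv'] at hdep
    obtain ⟨b, hb, hb1, hb2⟩ := Dep.half (Y := Y) hdep
    have hrk3 := (ha.mul (label_rk P W ρ u v Y)).mul hb
    refine hrk3.mono ?_
    -- arithmetic of cardinalities
    have c1 : ((univ \ Dv W (P.S v)) ∩ Y).card + (Dv W (P.S v) ∩ Y).card = Y.card := by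
      rw [← card_union_of_disjoint]
      · congr 1
        ext i
        simp only [mem_union, mem_inter, mem_sdiff, mem_univ, true_and]
        tauto
      · rw [Finset.disjoint_left]
        intro i h1 h2
        simp only [mem_inter, mem_sdiff] at h1 h2
        exact h1.1.2 h2.1
    have c2 : (univ \ Dv W (P.S v)).card + (Dv W (P.S v)).card = 4 * p := by
      rw [card_sdiff_add_card_eq_card (subset_univ _), card_univ, Fintype.card_coe, hW]
    have c3 : (Dv W (P.S u) ∩ Y).card ≤ (Dv W (P.S v) ∩ Y).card :=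
      card_le_card (inter_subset_inter_right hsubD)
    have c4 : (Dv W (P.S u) \ Y).card ≤ (Dv W (P.S v) \ Y).card :=
      card_le_card (sdiff_subset_sdiff hsubD subset_rfl)
    have c5 : (Dv W (P.S u) ∩ Y).card + (Dv W (P.S u) \ Y).card = (Dv W (P.S u)).card :=
      card_inter_add_card_sdiff _ _
    have c6 : (Dv W (P.S v) ∩ Y).card + (Dv W (P.S v) \ Y).card = (Dv W (P.S v)).card :=
      card_inter_add_card_sdiff _ _
    have hab : a + b + e ≤ 2 * p := by
      by_cases hδ : (Dv W (P.S u)).card + 2 * e ≤ (Dv W (P.S v)).card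
      · omega
      · have hmem : Dv W (P.S u) ∈ ((univ.image fun v => Dv W (P.S v)).filter
            fun D => k0 < D.card + ℓ ∧ D.card ≤ k0) := by
          rw [mem_filter]
          refine ⟨mem_image_of_mem _ (mem_univ u), ?_, hc.1⟩
          rcases hℓ with h | h
          · omega
          · have h1 := h u v hw
            have h2 : (Dv W (P.S v) \ Dv W (P.S u)).card ≤ (P.S v \ P.S u).card := by
              apply card_le_card_of_injOn (fun i : ↥W => i.1)
              · intro i hi
                rw [mem_coe, mem_sdiff, mem_Dv, mem_Dv] at hi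
                rw [mem_coe, mem_sdiff]
                exact hi
              · intro i _ j _ hij
                exact Subtype.ext hij
            have h3 : (Dv W (P.S v) \ Dv W (P.S u)).card + (Dv W (P.S u)).card =
                (Dv W (P.S v)).card := card_sdiff_add_card_eq_card hsubD
            omega
        have hn := hYn _ hmem
        unfold Near at hn
        omega
    have hpow : 2 ^ a * 2 * 2 ^ b = 2 * 2 ^ (a + b) := by rw [pow_add]; ring
    rw [hpow]
    exact Nat.mul_le_mul_left _ (Nat.pow_le_pow_right (by norm_num) (by omega))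
  have hfin := hρ _ hrk
  rw [hcY, card_univ, Fintype.card_prod, Fintype.card_fin] at hfin
  have he2 : e ≤ 2 * p := by omega
  have hsplit : 2 ^ (2 * p) = 2 ^ (2 * p - e) * 2 ^ e := by
    rw [← pow_add]; congr 1; omega
  rw [hsplit] at hfin
  have hpos : 0 < 2 ^ (2 * p - e) := by positivity
  have h5 : 2 ^ (2 * p - e) * 2 ^ e ≤ 2 ^ (2 * p - e) * (2 * N ^ 2) := by
    calc 2 ^ (2 * p - e) * 2 ^ e ≤ N * N * (2 * 2 ^ (2 * p - e)) := hfin
      _ = 2 ^ (2 * p - e) * (2 * N ^ 2) := by ring
  exact Nat.le_of_mul_le_mul_left h5 hpos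

end Pool.Agent.Y530
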