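import Pool.Agent.Y530.SetCore

/-!
# Programs with few sets: the main theorem
-/

set_option autoImplicit false
set_option linter.unusedSectionVars false

namespace Pool.Agent.Y530

open Finset Pool.Agent.TH708.Nar Pool.Agent.TH708.Ari

variable {K : Type} [Field K] {n N : ℕ}

lemma sum_windows {α : Type*} [DecidableEq α] (𝒜 : Finset α) (c : α → ℕ) (p ℓ r : ℕ)
    (hr : r * ℓ ≤ p) :
    ∑ j ∈ range r, (𝒜.filter fun D => p - j * ℓ < c D + ℓ ∧ c D ≤ p - j * ℓ).card ≤ 𝒜.card := by
  rw [← card_biUnion]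
  · apply card_le_card
    intro D hD
    rw [mem_biUnion] at hD
    obtain ⟨j, _, hj⟩ := hD
    exact (mem_filter.mp hj).1
  · intro i hi j hj hij
    simp only [Function.onFun]
    rw [Finset.disjoint_left]
    intro D h1 h2
    rw [mem_filter] at h1 h2
    rw [mem_coe, mem_range] at hi hj
    rcases Nat.lt_or_gt_of_ne hij with h | h
    · have e1 : (i + 1) * ℓ ≤ j * ℓ := Nat.mul_le_mul_right _ h
      have e2 : (j + 1) * ℓ ≤ r * ℓ := Nat.mul_le_mul_right _ hj
      have e3 : (i + 1) * ℓ = i * ℓ + ℓ := by ring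
      have e4 : (j + 1) * ℓ = j * ℓ + ℓ := by ring
      omega
    · have e1 : (j + 1) * ℓ ≤ i * ℓ := Nat.mul_le_mul_right _ h
      have e2 : (i + 1) * ℓ ≤ r * ℓ := Nat.mul_le_mul_right _ hi
      have e3 : (i + 1) * ℓ = i * ℓ + ℓ := by ring
      have e4 : (j + 1) * ℓ = j * ℓ + ℓ := by ring
      omega

lemma exists_window {α : Type*} [DecidableEq α] (𝒜 : Finset α) (c : α → ℕ) (p e ℓ r : ℕ)
    (hr0 : 0 < r) (hr : r * ℓ + e ≤ p) (hq : e * 𝒜.card ≤ r * (p - 1)) :
    ∃ k0, k0 ≤ p ∧ e + ℓ ≤ k0 ∧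
      e * (𝒜.filter fun D => k0 < c D + ℓ ∧ c D ≤ k0).card ≤ p - 1 := by
  by_contra hcon
  push Not at hcon
  have h1 : ∀ j ∈ range r, (p - 1) + 1 ≤
      e * (𝒜.filter fun D => p - j * ℓ < c D + ℓ ∧ c D ≤ p - j * ℓ).card := by
    intro j hj
    rw [mem_range] at hj
    have e1 : (j + 1) * ℓ ≤ r * ℓ := Nat.mul_le_mul_right _ hj
    have e3 : (j + 1) * ℓ = j * ℓ + ℓ := by ring
    exact hcon (p - j * ℓ) (Nat.sub_le _ _) (by omega)
  have h2 := Finset.sum_le_sum h1
  rw [Finset.sum_const, card_range, smul_eq_mul, ← Finset.mul_sum] at h2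
  have h3 := Nat.mul_le_mul_left e (sum_windows 𝒜 c p ℓ r (by omega))
  have h4 : r * (p - 1 + 1) = r * (p - 1) + r := by ring
  omega

/-- the core inequality with the optimal level -/
theorem core' (P : SetProg K n N) (hP : IsPer P.eval ∨ IsDet P.eval) (p e ℓ : ℕ) (hp : p.Prime)
    (hn : 4 * p ≤ n) (he : e % 2 = 1) (hℓ0 : 0 < ℓ)
    (hℓ : 2 * e ≤ ℓ ∨ ∀ u v, P.w u v ≠ 0 → (P.S v \ P.S u).card ≤ ℓ)
    (h1 : 2 * (e + ℓ) ≤ p) (h2 : 2 * ℓ * (e * P.numSets) ≤ p * (p - 1)) : 2 ^ e ≤ 2 * N ^ 2 := by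
  classical
  obtain ⟨W, _, hW⟩ := exists_subset_card_eq (s := (univ : Finset (Fin n))) (n := 4 * p)
    (by rw [card_univ, Fintype.card_fin]; exact hn)
  have hr : (p - e) / ℓ * ℓ ≤ p - e := Nat.div_mul_le_self _ _
  have hr' : p - e < ((p - e) / ℓ + 1) * ℓ := by
    have := Nat.lt_div_mul_add (a := p - e) hℓ0
    linarith [this]
  have hr'' : ((p - e) / ℓ + 1) * ℓ = (p - e) / ℓ * ℓ + ℓ := by ring
  obtain ⟨r, hrdef⟩ : ∃ r, r = (p - e) / ℓ := ⟨_, rfl⟩
  rw [← hrdef] at hr hr' hr''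
  have h3 : p ≤ 2 * (r * ℓ) := by omega
  have hr0 : 0 < r := by
    rcases Nat.eq_zero_or_pos r with h | h
    · rw [h] at h3
      have := hp.pos
      omega
    · exact h
  have hcard : (univ.image fun v => Dv W (P.S v)).card ≤ P.numSets := by
    have : (univ.image fun v => Dv W (P.S v)) = (univ.image P.S).image (Dv W) := by
      rw [image_image]; rfl
    rw [this]
    exact card_image_le
  have h4 : e * (univ.image fun v => Dv W (P.S v)).card ≤ r * (p - 1) := by
    have h5 : 2 * ℓ * (e * (univ.image fun v => Dv W (P.S v)).card) ≤ 2 * ℓ * (r * (p - 1)) := by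
      calc 2 * ℓ * (e * (univ.image fun v => Dv W (P.S v)).card)
          ≤ 2 * ℓ * (e * P.numSets) := by gcongr
        _ ≤ p * (p - 1) := h2
        _ ≤ 2 * (r * ℓ) * (p - 1) := by gcongr
        _ = 2 * ℓ * (r * (p - 1)) := by ring
    exact Nat.le_of_mul_le_mul_left h5 (by omega)
  obtain ⟨k0, a1, a2, a3⟩ := exists_window (univ.image fun v => Dv W (P.S v)) (fun D => D.card)
    p e ℓ r hr0 (by omega) h4
  exact core P hP p e ℓ k0 hp W hW he a1 a2 hℓ a3

/-- the number of sets is at least `n / J` -/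
lemma le_numSets_mul (P : SetProg K n N) (hP : IsPer P.eval ∨ IsDet P.eval) (J : ℕ)
    (hJ : ∀ u v, P.w u v ≠ 0 → (P.S v \ P.S u).card ≤ J) : n ≤ P.numSets * J := by
  classical
  have hne : P.eval (fun q => if q.1 = q.2 then 1 else 0) ≠ 0 := by
    have h01 : ∀ q : Fin n × Fin n, (if q.1 = q.2 then (1 : K) else 0) = 0 ∨
        (if q.1 = q.2 then (1 : K) else 0) = 1 := by
      intro q; split_ifs <;> simp
    have h1 : (Matrix.of fun i j : Fin n => if i = j then (1 : K) else 0) = 1 := by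
      ext i j; simp [Matrix.one_apply]
    rcases hP with h | h
    · rw [h _ h01]
      simp only [h1, Matrix.permanent_one]
      exact one_ne_zero
    · rw [h _ h01]
      simp only [h1, Matrix.det_one]
      exact one_ne_zero
  have hcross : ∀ c ∈ range n, ∃ u, (P.S u).card ≤ c ∧ c < (P.S u).card + J := by
    intro c hc
    rw [mem_range] at hc
    have hcut := cut_entries P univ c (by rw [card_univ, Fintype.card_fin]; exact hc)
      (fun q => if q.1 = q.2 then 1 else 0)
    rw [hcut] at hne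
    obtain ⟨⟨u, v⟩, _, huv⟩ := Finset.exists_ne_zero_of_sum_ne_zero hne
    have hD : ∀ A : Finset (Fin n), (Dv (univ : Finset (Fin n)) A).card = A.card := by
      intro A
      have : A = (Dv univ A).image (fun i => i.1) := by
        ext i
        simp [Dv]
      conv_rhs => rw [this]
      rw [card_image_of_injective _ Subtype.val_injective]
    simp only [hD] at huv
    have h1 : (P.S u).card ≤ c ∧ c < (P.S v).card := by
      by_contra h
      rw [if_neg h] at huv
      exact huv rfl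
    rw [if_pos h1] at huv
    have hw : P.w u v ≠ 0 := by
      intro h
      rw [h, Pi.zero_apply, mul_zero, zero_mul] at huv
      exact huv rfl
    have h2 := hJ u v hw
    have h3 := card_sdiff_add_card_eq_card (P.edge u v hw).2
    exact ⟨u, h1.1, by omega⟩
  have hsub : range n ⊆ (univ.image P.S).biUnion fun A => Ico A.card (A.card + J) := by
    intro c hc
    obtain ⟨u, h1, h2⟩ := hcross c hc
    rw [mem_biUnion]
    exact ⟨P.S u, mem_image_of_mem _ (mem_univ _), mem_Ico.mpr ⟨h1, h2⟩⟩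
  have h := card_le_card hsub
  rw [card_range] at h
  refine h.trans (card_biUnion_le.trans ?_)
  simp only [Nat.card_Ico, Nat.add_sub_cancel_left, Finset.sum_const, smul_eq_mul]
  exact le_rfl

lemma exists_prime (n : ℕ) (hn : 8 ≤ n) : ∃ p, p.Prime ∧ 4 * p ≤ n ∧ n + 1 ≤ 8 * p := by
  obtain ⟨p, hp, h1, h2⟩ := Nat.exists_prime_lt_and_le_two_mul (n / 8) (by omega)
  exact ⟨p, hp, by omega, by omega⟩

lemma prime_sq {n p : ℕ} (hn : 16 ≤ n) (hp : n + 1 ≤ 8 * p) : n ^ 2 ≤ 128 * (p * (p - 1)) := by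
  obtain ⟨q, rfl⟩ : ∃ q, p = q + 1 := ⟨p - 1, by omega⟩
  simp only [Nat.add_sub_cancel]
  have h1 : n ≤ 8 * q + 7 := by omega
  have hq : 2 ≤ q := by omega
  nlinarith

/-- **Programs with few sets.** -/
theorem main (P : SetProg K n N) (hP : IsPer P.eval ∨ IsDet P.eval) :
    (∀ J : ℕ, (∀ u v, P.w u v ≠ 0 → (P.S v \ P.S u).card ≤ J) →
      2 ^ (n ^ 2 / (256 * J * P.numSets)) ≤ 4 * N ^ 2) ∧
    2 ^ (n / (32 * (P.numSets.sqrt + 1))) ≤ 4 * N ^ 2 := by
  have hN : 1 ≤ N := by
    have := P.src.2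
    omega
  have hN2 : 4 ≤ 4 * N ^ 2 := by nlinarith
  have hsmall : ∀ E : ℕ, E ≤ 2 → 2 ^ E ≤ 4 * N ^ 2 := by
    intro E hE
    exact le_trans (Nat.pow_le_pow_right (by norm_num) hE) (by simpa using hN2)
  have hq1 : 1 ≤ P.numSets := by
    unfold SetProg.numSets
    exact card_pos.mpr ⟨P.S P.src, mem_image_of_mem _ (mem_univ _)⟩
  have hodd : ∀ E : ℕ, 3 ≤ E → (∀ e, e % 2 = 1 → e ≤ E → 2 ^ e ≤ 2 * N ^ 2) →
      2 ^ E ≤ 4 * N ^ 2 := by
    intro E hE h
    rcases Nat.even_or_odd' E with ⟨k, hk | hk⟩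
    · have h1 := h (E - 1) (by omega) (by omega)
      have h2 : 2 ^ E = 2 * 2 ^ (E - 1) := by
        rw [← pow_succ']; congr 1; omega
      rw [h2]; omega
    · have h1 := h E (by omega) le_rfl
      omega
  refine ⟨?_, ?_⟩
  · intro J hJ
    rcases Nat.lt_or_ge (n ^ 2 / (256 * J * P.numSets)) 3 with hE | hE
    · exact hsmall _ (by omega)
    have hJ0 : 0 < J := by
      rcases Nat.eq_zero_or_pos J with h | h
      · rw [h] at hE; simp at hE
      · exact h
    have hnq := le_numSets_mul P hP J hJ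
    apply hodd _ hE
    intro e he heE
    have h256 : e * (256 * J * P.numSets) ≤ n ^ 2 :=
      le_trans (Nat.mul_le_mul_right _ heE) (Nat.div_mul_le_self _ _)
    have hn0 : 0 < n := by
      rcases Nat.eq_zero_or_pos n with h | h
      · have h' : n ^ 2 = 0 := by simp [h]
        rw [h', Nat.zero_div] at hE
        omega
      · exact h
    have hen : 256 * e ≤ n := by
      have h1 : (256 * e) * n ≤ n * n := by
        calc (256 * e) * n ≤ (256 * e) * (P.numSets * J) := by gcongr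
          _ = e * (256 * J * P.numSets) := by ring
          _ ≤ n ^ 2 := h256
          _ = n * n := by ring
      exact Nat.le_of_mul_le_mul_right h1 hn0
    have he1 : 1 ≤ e := by omega
    obtain ⟨p, hp, hp1, hp2⟩ := exists_prime n (by omega)
    have hsq := prime_sq (by omega : 16 ≤ n) hp2
    refine core' P hP p e (min J (2 * e)) hp hp1 he (by omega) ?_ (by omega) ?_
    · rcases Nat.le_total J (2 * e) with h | h
      · right
        rw [min_eq_left h]
        exact hJ
      · left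
        rw [min_eq_right h]
    · have h1 : 2 * min J (2 * e) * (e * P.numSets) ≤ 2 * J * (e * P.numSets) := by
        gcongr
        exact min_le_left _ _
      have h2 : 128 * (2 * J * (e * P.numSets)) = e * (256 * J * P.numSets) := by ring
      omega
  · rcases Nat.lt_or_ge (n / (32 * (P.numSets.sqrt + 1))) 3 with hE | hE
    · exact hsmall _ (by omega)
    apply hodd _ hE
    intro e he heE
    have hs1 : 1 ≤ P.numSets.sqrt := by
      rw [Nat.le_sqrt]; simpa using hq1
    have h32 : e * (32 * (P.numSets.sqrt + 1)) ≤ n :=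
      le_trans (Nat.mul_le_mul_right _ heE) (Nat.div_mul_le_self _ _)
    have hen : 64 * e ≤ n := by
      calc 64 * e = e * (32 * (1 + 1)) := by ring
        _ ≤ e * (32 * (P.numSets.sqrt + 1)) := by gcongr
        _ ≤ n := h32
    have he1 : 1 ≤ e := by omega
    have hn3 : 64 ≤ n := by omega
    obtain ⟨p, hp, hp1, hp2⟩ := exists_prime n (by omega)
    have hsq := prime_sq (by omega : 16 ≤ n) hp2
    refine core' P hP p e (2 * e) hp hp1 he (by omega) (Or.inl le_rfl) (by omega) ?_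
    have h1 : P.numSets ≤ (P.numSets.sqrt + 1) ^ 2 := by
      have := Nat.lt_succ_sqrt P.numSets
      have h2 : (P.numSets.sqrt + 1) ^ 2 = (P.numSets.sqrt.succ) * (P.numSets.sqrt.succ) := by
        rw [Nat.succ_eq_add_one]; ring
      omega
    have h2 : 1024 * (e ^ 2 * P.numSets) ≤ n ^ 2 := by
      calc 1024 * (e ^ 2 * P.numSets) ≤ 1024 * (e ^ 2 * (P.numSets.sqrt + 1) ^ 2) := by gcongr
        _ = (e * (32 * (P.numSets.sqrt + 1))) ^ 2 := by ring
        _ ≤ n ^ 2 := Nat.pow_le_pow_left h32 2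
    have h3 : 2 * (2 * e) * (e * P.numSets) = 4 * (e ^ 2 * P.numSets) := by ring
    omega

end Pool.Agent.Y530
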