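import Pool.Agent.Y530.Alt
import Pool.Agent.TH708.Nar.Near

/-!
# Unbalancing few sets
-/

set_option autoImplicit false

namespace Pool.Agent.Y530

open Finset Pool.Agent.TH708.Nar

/-- For few sets (`e` times their number is less than the prime `p`) of sizes between `e + 1` and
`p` in a set of `4 p` elements there is a half of the ground set which splits none of them nearly
evenly. -/
theorem exists_unbalanced {V : Type} [Fintype V] [DecidableEq V] (p e : ℕ) (hp : p.Prime)
    (hV : Fintype.card V = 4 * p) (𝒟 : Finset (Finset V)) (he : e % 2 = 1)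
    (hcard : e * 𝒟.card ≤ p - 1) (hD : ∀ D ∈ 𝒟, e + 1 ≤ D.card ∧ D.card ≤ p) :
    ∃ Y : Finset V, 2 * Y.card = 4 * p ∧ ∀ D ∈ 𝒟, ¬ Near e D Y := by
  classical
  have : Fact p.Prime := ⟨hp⟩
  have hp2 := hp.two_le
  by_contra hcon
  push Not at hcon
  have hcV : Fintype.card V = Fintype.card (Fin (2 * p) × Bool) := by
    rw [hV, Fintype.card_prod, Fintype.card_fin, Fintype.card_bool]; ring
  let φ : V ≃ Fin (2 * p) × Bool := Fintype.equivOfCardEq hcV
  let ι := Fin (2 * p - 1)
  let em : ι → Fin (2 * p) := fun i => ⟨i.1, by omega⟩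
  have hem : Function.Injective em := by
    intro a b h
    have := congrArg Fin.val h
    exact Fin.ext this
  -- the set of a point of the cube
  let Yo : Finset ι → Finset V := fun X => univ.filter fun v => (φ v).1 ∈ X.image em
  let d : Finset V → ι → ℕ := fun D i => (D.filter fun v => (φ v).1 = em i).card
  have hinter : ∀ (D : Finset V) (X : Finset ι), (D ∩ Yo X).card = ∑ i ∈ X, d D i := by
    intro D X
    have e1 : D ∩ Yo X = X.biUnion fun i => D.filter fun v => (φ v).1 = em i := by
      ext v
      simp only [Yo, mem_inter, mem_filter, mem_univ, true_and, mem_image, mem_biUnion]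
      constructor
      · rintro ⟨h, i, hi, hv⟩; exact ⟨i, hi, h, hv.symm⟩
      · rintro ⟨i, hi, h, hv⟩; exact ⟨h, i, hi, hv.symm⟩
    rw [e1, card_biUnion]
    intro i _ j _ hij
    simp only [Function.onFun]
    rw [Finset.disjoint_left]
    intro v hv hv'
    rw [mem_filter] at hv hv'
    exact hij (hem (hv.2.symm.trans hv'.2))
  have hYo : ∀ X, (Yo X).card = 2 * X.card := by
    intro X
    have e1 : Yo X = univ ∩ Yo X := by simp
    rw [e1, hinter]
    have e2 : ∀ i, d univ i = 2 := by
      intro i
      have e3 : (univ.filter fun v => (φ v).1 = em i) =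
          (univ : Finset Bool).image fun b => φ.symm (em i, b) := by
        ext v
        simp only [mem_filter, mem_univ, true_and, mem_image]
        constructor
        · intro h
          refine ⟨(φ v).2, ?_⟩
          rw [← h]
          simp
        · rintro ⟨b, rfl⟩
          simp
      show (univ.filter fun v => (φ v).1 = em i).card = 2
      rw [e3, card_image_of_injective]
      · simp
      · intro b b' h
        have := φ.symm.injective h
        simpa using this
    simp [e2, mul_comm]
  obtain ⟨τ, hτ⟩ : ∃ τ, e = 2 * τ + 1 := ⟨e / 2, by omega⟩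
  let L := ↥𝒟 × Fin e
  let cc : L → ZMod p := fun l => - ((l.1.1.card / 2 - τ + l.2.1 : ℕ) : ZMod p)
  let bb : L → ι → ZMod p := fun l i => (d l.1.1 i : ZMod p)
  have hL : Fintype.card L ≤ p - 1 := by
    rw [Fintype.card_prod, Fintype.card_fin, Fintype.card_coe, mul_comm]
    exact hcard
  have s1 := alt_sum_zero cc bb (by
    rw [Fintype.card_fin]; omega)
  have s2 := alt_sum_zero (L := L ⊕ Fin (p - 1)) (Sum.elim cc fun _ => 0)
    (Sum.elim bb fun _ _ => 1) (by
    rw [Fintype.card_sum, Fintype.card_fin, Fintype.card_fin]; omega)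
  have key : ∀ X : Finset ι, X ≠ ∅ →
      (∏ l, (cc l + ∑ i ∈ X, bb l i)) * (1 - (X.card : ZMod p) ^ (p - 1)) = 0 := by
    intro X hX
    by_cases hdv : p ∣ X.card
    · -- then `X` has exactly `p` elements
      have h1 : X.card ≤ 2 * p - 1 := by
        have := card_le_univ X
        rwa [Fintype.card_fin] at this
      have h2 : 0 < X.card := card_pos.mpr (nonempty_iff_ne_empty.mpr hX)
      have h3 : X.card = p := by
        obtain ⟨k, hk⟩ := hdv
        have : k = 1 := by
          rcases k with _ | _ | k
          · omega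
          · rfl
          · exfalso
            have : p * (k + 1 + 1) = p * k + 2 * p := by ring
            omega
        rw [hk, this, mul_one]
      obtain ⟨D, hDm, hN⟩ := hcon (Yo X) (by rw [hYo, h3]; ring)
      obtain ⟨hDc, hDc'⟩ := hD D hDm
      unfold Near at hN
      rw [hinter] at hN
      have hj : (∑ i ∈ X, d D i) - (D.card / 2 - τ) < e := by omega
      rw [Finset.prod_eq_zero (Finset.mem_univ ((⟨⟨D, hDm⟩, ⟨_, hj⟩⟩ : L))), zero_mul]
      simp only [cc, bb]
      rw [← Nat.cast_sum]
      have : D.card / 2 - τ + ((∑ i ∈ X, d D i) - (D.card / 2 - τ)) = ∑ i ∈ X, d D i := by omega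
      rw [this]
      ring
    · have h1 : (X.card : ZMod p) ≠ 0 := by
        rw [Ne, ZMod.natCast_eq_zero_iff]; exact hdv
      rw [ZMod.pow_card_sub_one_eq_one h1, sub_self, mul_zero]
  have hsum : ∑ X : Finset ι, (-1 : ZMod p) ^ X.card * ((∏ l, (cc l + ∑ i ∈ X, bb l i)) *
      (1 - (X.card : ZMod p) ^ (p - 1))) = 0 := by
    rw [← sub_zero (0 : ZMod p)]
    nth_rewrite 1 [← s1]
    rw [← s2, ← Finset.sum_sub_distrib]
    apply Finset.sum_congr rfl
    intro X _
    rw [Fintype.prod_sum_type]
    simp only [Sum.elim_inl, Sum.elim_inr, zero_add, Finset.sum_const, nsmul_eq_mul, mul_one,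
      Finset.prod_const, Finset.card_univ, Fintype.card_fin]
    ring
  rw [Finset.sum_eq_single ∅] at hsum
  · have h0 : p - 1 ≠ 0 := by omega
    simp only [card_empty, pow_zero, Finset.sum_empty, add_zero, Nat.cast_zero, one_mul,
      zero_pow h0, sub_zero, mul_one] at hsum
    rw [Finset.prod_eq_zero_iff] at hsum
    obtain ⟨⟨⟨D, hDm⟩, j⟩, _, hl⟩ := hsum
    simp only [cc, neg_eq_zero] at hl
    rw [ZMod.natCast_eq_zero_iff] at hl
    obtain ⟨hDc, hDc'⟩ := hD D hDm
    have hj := j.2
    have := Nat.le_of_dvd (by omega) hl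
    omega
  · intro X _ hX
    rw [key X hX, mul_zero]
  · intro h
    exact absurd (Finset.mem_univ _) h

end Pool.Agent.Y530
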