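import Pool.Agent.TH708.Ari.ProgPerm
import Pool.Agent.Y530.Unbal

/-!
# Branching programs whose vertices carry sets of rows
-/

set_option autoImplicit false
set_option linter.unusedSectionVars false

namespace Pool.Agent.Y530

open Finset Pool.Agent.TH708.Nar Pool.Agent.TH708.Ari

variable {K : Type} [Field K] {n N : ℕ}

/-- The function does not depend on the diagonal entries. -/
def OffDiag (f : (Fin n × Fin n → K) → K) : Prop :=
  ∀ z z' : Fin n × Fin n → K, (∀ i j, i ≠ j → z (i, j) = z' (i, j)) → f z = f z'

/-- A branching program with the vertices `0, …, N - 1` and edges from smaller to larger vertices.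
The vertex `v` carries a set `S v` of indices, the set of the source is empty, the set of the sink
contains all indices, and the sets grow along the edges. The label `w u v` of the edge from `u` to
`v` is an affine form in the diagonal entries `(i, i)`, `i ∈ S v \ S u`, whose coefficients are
arbitrary functions of the entries outside of the diagonal. -/
structure SetProg (K : Type) [Field K] (n N : ℕ) where
  /-- the labels; there is no edge if the label is zero -/
  w : Fin N → Fin N → (Fin n × Fin n → K) → K
  /-- the sets -/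
  S : Fin N → Finset (Fin n)
  /-- the source -/
  src : Fin N
  /-- the sink -/
  snk : Fin N
  src_empty : S src = ∅
  snk_univ : S snk = univ
  edge : ∀ u v, w u v ≠ 0 → u < v ∧ S u ⊆ S v
  label : ∀ u v, ∃ (a : (Fin n × Fin n → K) → K) (b : Fin n → (Fin n × Fin n → K) → K),
    OffDiag a ∧ (∀ i, OffDiag (b i)) ∧ ∀ z, w u v z = a z + ∑ i ∈ S v \ S u, b i z * z (i, i)

namespace SetProg

/-- The matrix of the labels. -/
def mat (P : SetProg K n N) (z : Fin n × Fin n → K) : Matrix (Fin N) (Fin N) K :=
  Matrix.of fun u v => P.w u v z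

/-- The sum, over all paths from the source to the sink, of the products of the labels. -/
def eval (P : SetProg K n N) (z : Fin n × Fin n → K) : K :=
  ∑ k ∈ range N, (P.mat z ^ k) P.src P.snk

/-- The number of different sets. -/
def numSets (P : SetProg K n N) : ℕ := (univ.image P.S).card

variable {P : SetProg K n N}

lemma pow_ne_zero_lt (P : SetProg K n N) (z : Fin n × Fin n → K) (k : ℕ) :
    ∀ u v, (P.mat z ^ k) u v ≠ 0 → u.1 + k ≤ v.1 := by
  induction k with
  | zero =>
    intro u v h
    rw [pow_zero, Matrix.one_apply] at h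
    have : u = v := by
      by_contra hne
      rw [if_neg hne] at h
      exact h rfl
    rw [this]; simp
  | succ k ih =>
    intro u v h
    rw [pow_succ, Matrix.mul_apply] at h
    obtain ⟨x, _, hx⟩ := Finset.exists_ne_zero_of_sum_ne_zero h
    have h1 := ih u x (left_ne_zero_of_mul hx)
    have h2 : P.w x v ≠ 0 := fun h0 => right_ne_zero_of_mul hx (by
      show P.w x v z = 0
      rw [h0]; rfl)
    have h3 := (P.edge x v h2).1
    have h4 : x.1 < v.1 := h3
    omega

lemma pow_N (P : SetProg K n N) (z : Fin n × Fin n → K) : P.mat z ^ N = 0 := by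
  ext u v
  by_contra h
  have := P.pow_ne_zero_lt z N u v h
  have := v.2
  omega

/-- the matrix of the sums over all paths -/
def G (P : SetProg K n N) (z : Fin n × Fin n → K) : Matrix (Fin N) (Fin N) K :=
  ∑ k ∈ range N, P.mat z ^ k

lemma eval_eq (P : SetProg K n N) (z : Fin n × Fin n → K) : P.eval z = P.G z P.src P.snk := by
  unfold eval G
  rw [Matrix.sum_apply]

lemma G_mul (P : SetProg K n N) (z : Fin n × Fin n → K) : P.G z * P.mat z = P.G z - 1 := by
  have h := geom_sum_mul_neg (P.mat z) N
  rw [P.pow_N, sub_zero] at h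
  unfold G
  have h2 : (∑ k ∈ range N, P.mat z ^ k) * P.mat z =
      (∑ k ∈ range N, P.mat z ^ k) - (∑ k ∈ range N, P.mat z ^ k) * (1 - P.mat z) := by
    rw [mul_sub, mul_one]; abel
  rw [h2, h]

lemma mul_G (P : SetProg K n N) (z : Fin n × Fin n → K) : P.mat z * P.G z = P.G z - 1 := by
  have h := mul_neg_geom_sum (P.mat z) N
  rw [P.pow_N, sub_zero] at h
  unfold G
  have h2 : P.mat z * (∑ k ∈ range N, P.mat z ^ k) =
      (∑ k ∈ range N, P.mat z ^ k) - (1 - P.mat z) * (∑ k ∈ range N, P.mat z ^ k) := by
    rw [sub_mul, one_mul]; abel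
  rw [h2, h]

end SetProg

/-- the cut formula -/
lemma cut_formula {R : Type*} [Ring R] (E G L : R) (hE : E * E = E) (hL : (1 - E) * L * E = 0)
    (h1 : G * L = G - 1) (h2 : L * G = G - 1) :
    E * G * (1 - E) = E * G * E * L * (1 - E) * G * (1 - E) := by
  have e1 : L * E = E * L * E := by
    have : (1 - E) * L * E = L * E - E * L * E := by noncomm_ring
    rw [this] at hL
    exact sub_eq_zero.mp hL
  have e2 : (1 - E) * L * (1 - E) = (1 - E) * L := by
    rw [mul_sub, mul_one, hL, sub_zero]
  have a1 : E * G * L * G * (1 - E) = E * (G - 1) * G * (1 - E) := by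
    rw [mul_assoc E G L, h1]
  have a2 : E * G * E * L * E = E * (G - 1) * E := by
    have : E * G * E * L * E = E * (G * (E * L * E)) := by noncomm_ring
    rw [this, ← e1, ← mul_assoc G L E, h1]
    noncomm_ring
  have a3 : (1 - E) * L * (1 - E) * G * (1 - E) = (1 - E) * (G - 1) * (1 - E) := by
    rw [e2, mul_assoc (1 - E) L G, h2]
  have b1 : E * G * E * L * (1 - E) * G * (1 - E) =
      E * G * L * G * (1 - E) - (E * G * E * L * E) * G * (1 - E)
        - E * G * ((1 - E) * L * (1 - E) * G * (1 - E)) - E * G * ((1 - E) * L * E) * G * (1 - E) := by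
    noncomm_ring
  rw [b1, a1, a2, a3, hL]
  have hE' : E * (1 - E) = 0 := by rw [mul_sub, mul_one, hE, sub_self]
  have b2 : E * (G - 1) * G * (1 - E) - E * (G - 1) * E * G * (1 - E) -
      E * G * ((1 - E) * (G - 1) * (1 - E)) - E * G * 0 * G * (1 - E) =
      E * G * (1 - E) + (E * E - E) * G * (1 - E) + E * G * ((1 - E) * (1 - E) - (1 - E)) := by
    noncomm_ring
  rw [b2, hE]
  have b3 : (1 - E) * (1 - E) = 1 - E := by
    rw [mul_sub, mul_one, sub_mul, one_mul, hE]; abel
  rw [b3]
  noncomm_ring

end Pool.Agent.Y530
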