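import Pool.Agent.Y530.SetProg

/-!
# The rank of a function computed by a program with sets
-/

set_option autoImplicit false
set_option linter.unusedSectionVars false

namespace Pool.Agent.Y530

open Finset Pool.Agent.TH708.Nar Pool.Agent.TH708.Ari

variable {K : Type} [Field K] {n N : ℕ}

/-- the tracked diagonal entries -/
def dg (W : Finset (Fin n)) : ↥W → Fin n × Fin n := fun i => (i.1, i.1)

lemma dg_injective (W : Finset (Fin n)) : Function.Injective (dg W) :=
  fun _ _ h => Subtype.ext (congrArg Prod.fst h)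

/-- the tracked part of a set -/
def Dv (W : Finset (Fin n)) (A : Finset (Fin n)) : Finset ↥W := univ.filter fun i => i.1 ∈ A

lemma mem_Dv {W A : Finset (Fin n)} {i : ↥W} : i ∈ Dv W A ↔ i.1 ∈ A := by simp [Dv]

lemma Dv_mono {W A B : Finset (Fin n)} (h : A ⊆ B) : Dv W A ⊆ Dv W B := by
  intro i hi
  rw [mem_Dv] at hi ⊢
  exact h hi

lemma point_offDiag (W : Finset (Fin n)) (ρ : Fin n × Fin n → K) (x : ↥W → Bool) {i j : Fin n}
    (hij : i ≠ j) : point (dg W) ρ x (i, j) = ρ (i, j) := by
  apply point_off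
  intro v hv
  have a1 : v.1 = i := congrArg Prod.fst hv
  have a2 : v.1 = j := congrArg Prod.snd hv
  exact hij (a1.symm.trans a2)

lemma point_diag (W : Finset (Fin n)) (ρ : Fin n × Fin n → K) (x : ↥W → Bool) (i : Fin n) :
    point (dg W) ρ x (i, i) = if h : i ∈ W then (if x ⟨i, h⟩ = true then 1 else 0) else ρ (i, i) := by
  by_cases hi : i ∈ W
  · rw [dif_pos hi]
    exact point_e (dg_injective W) ρ x ⟨i, hi⟩
  · rw [dif_neg hi]
    apply point_off
    intro v hv
    have a1 : v.1 = i := congrArg Prod.fst hv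
    exact hi (a1 ▸ v.2)

/-- the labels as functions of the tracked entries -/
lemma label_eq (P : SetProg K n N) (W : Finset (Fin n)) (ρ : Fin n × Fin n → K) (u v : Fin N) :
    ∃ (a : K) (b : ↥W → K), (∀ i, i ∉ Dv W (P.S v) \ Dv W (P.S u) → b i = 0) ∧
      ∀ x, P.w u v (point (dg W) ρ x) = a + ∑ i, b i * (if x i = true then 1 else 0) := by
  classical
  obtain ⟨a, b, ha, hb, hw⟩ := P.label u v
  refine ⟨a ρ + ∑ i ∈ (P.S v \ P.S u).filter (fun i => i ∉ W), b i ρ * ρ (i, i),
    fun i => if i ∈ Dv W (P.S v) \ Dv W (P.S u) then b i.1 ρ else 0, ?_, ?_⟩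
  · intro i hi
    simp [hi]
  · intro x
    have h0 : ∀ i j, i ≠ j → point (dg W) ρ x (i, j) = ρ (i, j) := fun i j hij =>
      point_offDiag W ρ x hij
    rw [hw, ha _ _ h0, Finset.sum_congr rfl (fun i _ => by rw [hb i _ _ h0]),
      ← Finset.sum_filter_add_sum_filter_not (P.S v \ P.S u) (fun i => i ∉ W), add_assoc]
    congr 2
    · apply Finset.sum_congr rfl
      intro i hi
      rw [mem_filter] at hi
      rw [point_diag, dif_neg hi.2]
    · have h1 : ∑ i : ↥W, (if i ∈ Dv W (P.S v) \ Dv W (P.S u) then b i.1 ρ else 0) *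
          (if x i = true then (1 : K) else 0) =
          ∑ i ∈ Dv W (P.S v) \ Dv W (P.S u), b i.1 ρ * (if x i = true then (1 : K) else 0) := by
        rw [← Finset.sum_filter_add_sum_filter_not univ
          (fun i => i ∈ Dv W (P.S v) \ Dv W (P.S u))]
        rw [Finset.sum_eq_zero (s := univ.filter fun i => ¬ i ∈ Dv W (P.S v) \ Dv W (P.S u))
          (by
            intro i hi
            rw [mem_filter] at hi
            rw [if_neg hi.2, zero_mul]), add_zero]
        rw [Finset.filter_mem_eq_inter, Finset.univ_inter]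
        apply Finset.sum_congr rfl
        intro i hi
        rw [if_pos hi]
      rw [h1]
      symm
      apply Finset.sum_bij (fun (i : ↥W) _ => i.1)
      · intro i hi
        rw [mem_sdiff, mem_Dv, mem_Dv] at hi
        rw [mem_filter, mem_sdiff]
        exact ⟨hi, not_not.mpr i.2⟩
      · intro i _ j _ h
        exact Subtype.ext h
      · intro i hi
        rw [mem_filter, mem_sdiff, not_not] at hi
        exact ⟨⟨i, hi.2⟩, by rw [mem_sdiff, mem_Dv, mem_Dv]; exact hi.1, rfl⟩
      · intro i _
        rw [point_diag, dif_pos i.2]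

lemma label_dep (P : SetProg K n N) (W : Finset (Fin n)) (ρ : Fin n × Fin n → K) (u v : Fin N) :
    Dep (Dv W (P.S v) \ Dv W (P.S u)) (fun x => P.w u v (point (dg W) ρ x)) := by
  obtain ⟨a, b, hb, h⟩ := label_eq P W ρ u v
  intro x x' hx
  simp only [h]
  congr 1
  apply Finset.sum_congr rfl
  intro i _
  by_cases hi : i ∈ Dv W (P.S v) \ Dv W (P.S u)
  · rw [hx i hi]
  · rw [hb i hi]; ring

lemma label_rk (P : SetProg K n N) (W : Finset (Fin n)) (ρ : Fin n × Fin n → K) (u v : Fin N)
    (Y : Finset ↥W) : RkLe Y 2 (fun x => P.w u v (point (dg W) ρ x)) := by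
  classical
  obtain ⟨a, b, hb, h⟩ := label_eq P W ρ u v
  have h1 : RkLe Y 1 (fun x : ↥W → Bool => a + ∑ i ∈ Y, b i * (if x i = true then 1 else 0)) := by
    refine ⟨Unit, inferInstance, fun _ x => a + ∑ i ∈ Y, b i * (if x i = true then 1 else 0),
      fun _ _ => 1, by simp, ?_, fun _ _ _ _ => rfl, fun x => by simp⟩
    intro _ x x' hx
    simp only
    congr 1
    apply Finset.sum_congr rfl
    intro i hi
    rw [hx i hi]
  have h2 : RkLe Y 1 (fun x : ↥W → Bool => ∑ i ∈ univ \ Y, b i * (if x i = true then 1 else 0)) := by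
    refine ⟨Unit, inferInstance, fun _ _ => 1,
      fun _ x => ∑ i ∈ univ \ Y, b i * (if x i = true then 1 else 0), by simp,
      fun _ _ _ _ => rfl, ?_, fun x => by simp⟩
    intro _ x x' hx
    simp only
    apply Finset.sum_congr rfl
    intro i hi
    rw [hx i hi]
  have h3 := h1.add h2
  have h4 : (fun x => P.w u v (point (dg W) ρ x)) = fun x : ↥W → Bool =>
      (a + ∑ i ∈ Y, b i * (if x i = true then (1 : K) else 0)) +
        ∑ i ∈ univ \ Y, b i * (if x i = true then (1 : K) else 0) := by
    funext x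
    rw [h, add_assoc, add_comm (∑ i ∈ Y, _), Finset.sum_sdiff (Finset.subset_univ Y)]
  rw [h4]
  exact h3

/-- the sums over the paths from `u` to `v` -/
lemma pow_dep (P : SetProg K n N) (W : Finset (Fin n)) (ρ : Fin n × Fin n → K) (k : ℕ) :
    ∀ u v, (∀ x, (P.mat (point (dg W) ρ x) ^ k) u v = 0) ∨ (P.S u ⊆ P.S v ∧
      Dep (Dv W (P.S v) \ Dv W (P.S u)) (fun x => (P.mat (point (dg W) ρ x) ^ k) u v)) := by
  induction k with
  | zero =>
    intro u v
    by_cases h : u = v
    · right
      subst h
      exact ⟨subset_rfl, fun _ _ _ => by simp⟩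
    · left
      intro x
      rw [pow_zero, Matrix.one_apply, if_neg h]
  | succ k ih =>
    intro u v
    have hterm : ∀ y, (∀ x, (P.mat (point (dg W) ρ x) ^ k) u y * P.w y v (point (dg W) ρ x) = 0) ∨
        (P.S u ⊆ P.S v ∧ Dep (Dv W (P.S v) \ Dv W (P.S u))
          (fun x => (P.mat (point (dg W) ρ x) ^ k) u y * P.w y v (point (dg W) ρ x))) := by
      intro y
      rcases ih u y with h | ⟨h1, h2⟩
      · left
        intro x
        rw [h x, zero_mul]
      · by_cases hw : P.w y v = 0
        · left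
          intro x
          rw [hw, Pi.zero_apply, mul_zero]
        · right
          have h3 := (P.edge y v hw).2
          refine ⟨h1.trans h3, ?_⟩
          refine (h2.mul (label_dep P W ρ y v)).mono ?_
          intro i hi
          rw [mem_union, mem_sdiff, mem_sdiff, mem_Dv, mem_Dv, mem_Dv] at hi
          rw [mem_sdiff, mem_Dv, mem_Dv]
          rcases hi with hi | hi
          · exact ⟨h3 hi.1, hi.2⟩
          · exact ⟨hi.1, fun h => hi.2 (h1 h)⟩
    have hsum : ∀ x, (P.mat (point (dg W) ρ x) ^ (k + 1)) u v =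
        ∑ y, (P.mat (point (dg W) ρ x) ^ k) u y * P.w y v (point (dg W) ρ x) := by
      intro x
      rw [pow_succ, Matrix.mul_apply]
      rfl
    by_cases hex : ∃ y, ¬ ∀ x, (P.mat (point (dg W) ρ x) ^ k) u y * P.w y v (point (dg W) ρ x) = 0
    · obtain ⟨y, hy⟩ := hex
      right
      rcases hterm y with h | h
      · exact absurd h hy
      refine ⟨h.1, ?_⟩
      simp only [hsum]
      apply Dep.sum
      intro y' _
      rcases hterm y' with h' | h'
      · intro x x' _
        simp only [h']
      · exact h'.2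
    · left
      intro x
      rw [hsum]
      apply Finset.sum_eq_zero
      intro y _
      by_contra h
      exact hex ⟨y, fun h' => h (h' x)⟩

lemma G_dep (P : SetProg K n N) (W : Finset (Fin n)) (ρ : Fin n × Fin n → K) (u v : Fin N) :
    Dep (Dv W (P.S v) \ Dv W (P.S u)) (fun x => P.G (point (dg W) ρ x) u v) := by
  have h : ∀ x, P.G (point (dg W) ρ x) u v =
      ∑ k ∈ range N, (P.mat (point (dg W) ρ x) ^ k) u v := by
    intro x
    unfold SetProg.G
    rw [Matrix.sum_apply]
  simp only [h]
  apply Dep.sum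
  intro k _
  rcases pow_dep P W ρ k u v with h' | h'
  · intro x x' _
    simp only [h']
  · exact h'.2

end Pool.Agent.Y530
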